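import Pool.Agent.H67.Pl.Basic

/-!
# The bad set of a grid and a circle
-/

open MeasureTheory
open scoped ComplexConjugate

namespace Pool.Agent.H67.Pl

/-- The `ε`-neighbourhood of the points `c + k s`. -/
def fbSt (s ε c : ℝ) : Set ℝ := ⋃ k : ℤ, Set.Icc (c + k * s - ε) (c + k * s + ε)

/-- The `ε`-neighbourhood of the lines of the grid of side `s` with origin `p` and of the circle of
radius `R`. -/
def fbBS (p : ℂ) (s R ε : ℝ) : Set ℂ :=
  {y | y.re ∈ fbSt s ε p.re} ∪ {y | y.im ∈ fbSt s ε p.im} ∪ {y | |‖y‖ - R| ≤ ε}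

theorem fbSt_meas (s ε c : ℝ) : MeasurableSet (fbSt s ε c) :=
  MeasurableSet.iUnion fun _ => measurableSet_Icc

theorem fbBS_meas (p : ℂ) (s R ε : ℝ) : MeasurableSet (fbBS p s R ε) := by
  refine ((Complex.measurable_re (fbSt_meas s ε p.re)).union
    (Complex.measurable_im (fbSt_meas s ε p.im))).union ?_
  exact measurableSet_le ((measurable_norm.sub_const R).abs) measurable_const

theorem fb_floor {s ε u v c : ℝ} (hs : 0 < s) (huv : |v - u| ≤ ε) (hu : u ∉ fbSt s ε c) :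
    ⌊(v - c) / s⌋ = ⌊(u - c) / s⌋ := by
  by_contra hne
  apply hu
  rw [fbSt, Set.mem_iUnion]
  rcases lt_or_gt_of_ne hne with h | h
  · -- `v` is below
    refine ⟨⌊(u - c) / s⌋, ?_⟩
    have h1 : (⌊(u - c) / s⌋ : ℝ) ≤ (u - c) / s := Int.floor_le _
    have h2 : (v - c) / s < (⌊(u - c) / s⌋ : ℝ) := by
      have h3 : (v - c) / s < ⌊(v - c) / s⌋ + 1 := Int.lt_floor_add_one _
      have h4 : (⌊(v - c) / s⌋ : ℝ) + 1 ≤ ⌊(u - c) / s⌋ := by exact_mod_cast h
      linarith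
    rw [le_div_iff₀ hs] at h1
    rw [div_lt_iff₀ hs] at h2
    rw [abs_le] at huv
    constructor <;> linarith [huv.1, huv.2]
  · refine ⟨⌊(v - c) / s⌋, ?_⟩
    have h1 : (⌊(v - c) / s⌋ : ℝ) ≤ (v - c) / s := Int.floor_le _
    have h2 : (u - c) / s < (⌊(v - c) / s⌋ : ℝ) := by
      have h3 : (u - c) / s < ⌊(u - c) / s⌋ + 1 := Int.lt_floor_add_one _
      have h4 : (⌊(u - c) / s⌋ : ℝ) + 1 ≤ ⌊(v - c) / s⌋ := by exact_mod_cast h
      linarith
    rw [le_div_iff₀ hs] at h1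
    rw [div_lt_iff₀ hs] at h2
    rw [abs_le] at huv
    constructor <;> linarith [huv.1, huv.2]

/-- Outside the bad set, a perturbation of size `ε` changes neither the cell nor the side of the
circle. -/
theorem fb_good {p : ℂ} {s R ε : ℝ} (hs : 0 < s) {y y' : ℂ} (hy : y ∉ fbBS p s R ε)
    (h : ‖y' - y‖ ≤ ε) :
    cell s (y' - p) = cell s (y - p) ∧ (‖y'‖ ≤ R ↔ ‖y‖ ≤ R) := by
  rw [fbBS, Set.mem_union, Set.mem_union, not_or, not_or] at hy
  obtain ⟨⟨h1, h2⟩, h3⟩ := hy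
  have k1 : |y'.re - y.re| ≤ ε := by
    have := Complex.abs_re_le_norm (y' - y)
    rw [Complex.sub_re] at this; exact this.trans h
  have k2 : |y'.im - y.im| ≤ ε := by
    have := Complex.abs_im_le_norm (y' - y)
    rw [Complex.sub_im] at this; exact this.trans h
  refine ⟨?_, ?_⟩
  · unfold cell
    rw [Complex.sub_re, Complex.sub_re, Complex.sub_im, Complex.sub_im, fb_floor hs k1 h1,
      fb_floor hs k2 h2]
  · have k3 : |‖y'‖ - ‖y‖| ≤ ε := (abs_norm_sub_norm_le _ _).trans h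
    have h3' : ε < |‖y‖ - R| := by simpa using h3
    rw [abs_le] at k3
    rw [lt_abs] at h3'
    constructor
    · intro hr
      by_contra hc
      rcases h3' with h3' | h3' <;> linarith [k3.1, k3.2, not_le.1 hc]
    · intro hr
      rcases h3' with h3' | h3' <;> linarith [k3.1, k3.2]

/-- The one-dimensional estimate. -/
theorem fbSt_vol {s ε c q : ℝ} (hs : 0 < s) (hε : 0 ≤ ε) (hε1 : ε ≤ 1 / 2) :
    volume (fbSt s ε c ∩ Set.Ico q (q + 1)) ≤ ENNReal.ofReal ((2 / s + 1) * (2 * ε)) := by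
  set a : ℤ := ⌈(q - c - ε) / s⌉ with ha
  set b : ℤ := ⌊(q + 1 - c + ε) / s⌋ with hb
  have hsub : fbSt s ε c ∩ Set.Ico q (q + 1)
      ⊆ ⋃ k ∈ Finset.Icc a b, Set.Icc (c + k * s - ε) (c + k * s + ε) := by
    rintro t ⟨ht, h1, h2⟩
    rw [fbSt, Set.mem_iUnion] at ht
    obtain ⟨k, hk1, hk2⟩ := ht
    simp only [Set.mem_iUnion]
    refine ⟨k, ?_, hk1, hk2⟩
    rw [Finset.mem_Icc]
    constructor
    · rw [ha, Int.ceil_le, div_le_iff₀ hs]; linarith
    · rw [hb, Int.le_floor, le_div_iff₀ hs]; linarith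
  have hcard : ((Finset.Icc a b).card : ℝ) ≤ 2 / s + 1 := by
    rw [Int.card_Icc]
    have h1 : (q - c - ε) / s ≤ a := Int.le_ceil _
    have h2 : (b : ℝ) ≤ (q + 1 - c + ε) / s := Int.floor_le _
    have h3 : ((b + 1 - a : ℤ) : ℝ) ≤ 2 / s + 1 := by
      push_cast
      have h4 : (q + 1 - c + ε) / s - (q - c - ε) / s = (1 + 2 * ε) / s := by
        field_simp; ring
      have h5 : (1 + 2 * ε) / s ≤ 2 / s := by
        gcongr; linarith
      linarith
    have h0 : (0 : ℝ) ≤ 2 / s + 1 := by positivity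
    rcases le_total 0 (b + 1 - a) with h | h
    · have : (((b + 1 - a).toNat : ℕ) : ℝ) = ((b + 1 - a : ℤ) : ℝ) := by
        have := Int.toNat_of_nonneg h
        exact_mod_cast this
      rw [this]; exact h3
    · rw [Int.toNat_of_nonpos h]; simpa using h0
  calc volume (fbSt s ε c ∩ Set.Ico q (q + 1))
      ≤ volume (⋃ k ∈ Finset.Icc a b, Set.Icc (c + k * s - ε) (c + k * s + ε)) :=
        measure_mono hsub
    _ ≤ ∑ k ∈ Finset.Icc a b, volume (Set.Icc (c + k * s - ε) (c + k * s + ε)) :=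
        measure_biUnion_finset_le _ _
    _ = ∑ k ∈ Finset.Icc a b, ENNReal.ofReal (2 * ε) := by
        refine Finset.sum_congr rfl fun k _ => ?_
        rw [Real.volume_Icc]; congr 1; ring
    _ = ENNReal.ofReal ((Finset.Icc a b).card * (2 * ε)) := by
        rw [Finset.sum_const, nsmul_eq_mul,
          ENNReal.ofReal_mul (p := ((Finset.Icc a b).card : ℝ)) (by positivity),
          ENNReal.ofReal_natCast]
    _ ≤ ENNReal.ofReal ((2 / s + 1) * (2 * ε)) := by
        refine ENNReal.ofReal_le_ofReal (mul_le_mul_of_nonneg_right hcard (by positivity))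

theorem sq_meas (p : ℂ) (r : ℝ) : MeasurableSet (sq p r) := by
  have : sq p r = Complex.re ⁻¹' (Set.Ico p.re (p.re + r)) ∩ Complex.im ⁻¹' (Set.Ico p.im (p.im + r)) := by
    ext x; simp [sq, and_assoc]
  rw [this]
  exact (Complex.measurable_re measurableSet_Ico).inter (Complex.measurable_im measurableSet_Ico)

theorem fb_reprod (A B : Set ℝ) (hA : MeasurableSet A) (hB : MeasurableSet B) :
    volume {y : ℂ | y.re ∈ A ∧ y.im ∈ B} = volume A * volume B := by
  have h := Complex.volume_preserving_equiv_real_prod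
  have h1 : {y : ℂ | y.re ∈ A ∧ y.im ∈ B} = Complex.measurableEquivRealProd ⁻¹' (A ×ˢ B) := by
    ext y; simp [Complex.measurableEquivRealProd]
  rw [h1, h.measure_preimage (hA.prod hB).nullMeasurableSet, Measure.volume_eq_prod,
    Measure.prod_prod]

/-- The annulus. -/
theorem fb_annulus {R ε : ℝ} (hR : 0 ≤ R) (hε : 0 < ε) :
    volume {y : ℂ | |‖y‖ - R| ≤ ε} ≤ ENNReal.ofReal (4 * Real.pi * (R + ε) * ε) := by
  have hsub : {y : ℂ | |‖y‖ - R| ≤ ε} ⊆ Metric.closedBall 0 (R + ε) \ Metric.ball 0 (R - ε) := by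
    intro y hy
    rw [Set.mem_ofPred_eq, abs_le] at hy
    refine ⟨?_, ?_⟩
    · rw [Metric.mem_closedBall, dist_zero_right]; linarith [hy.2]
    · rw [Metric.mem_ball, dist_zero_right, not_lt]; linarith [hy.1]
  refine (measure_mono hsub).trans ?_
  by_cases h : 0 ≤ R - ε
  · rw [measure_sdiff (Metric.ball_subset_closedBall.trans
      (Metric.closedBall_subset_closedBall (by linarith))) measurableSet_ball.nullMeasurableSet
      measure_ball_lt_top.ne, Complex.volume_closedBall, Complex.volume_ball,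
      ← ENNReal.ofReal_pow (by linarith), ← ENNReal.ofReal_pow h]
    have e1 : ((NNReal.pi : NNReal) : ENNReal) = ENNReal.ofReal Real.pi := by
      rw [ENNReal.ofReal]; congr 1; ext; simp [Real.pi_pos.le]
    rw [e1, ← ENNReal.ofReal_mul (by positivity), ← ENNReal.ofReal_mul (by positivity),
      ← ENNReal.ofReal_sub _ (by positivity)]
    refine ENNReal.ofReal_le_ofReal ?_
    nlinarith [Real.pi_pos, mul_pos Real.pi_pos (mul_pos hε hε)]
  · have h' : Metric.closedBall (0 : ℂ) (R + ε) \ Metric.ball 0 (R - ε)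
        ⊆ Metric.closedBall (0 : ℂ) (R + ε) := Set.sdiff_subset
    refine (measure_mono h').trans ?_
    have e1 : ((NNReal.pi : NNReal) : ENNReal) = ENNReal.ofReal Real.pi := by
      rw [ENNReal.ofReal]; congr 1; ext; simp [Real.pi_pos.le]
    rw [Complex.volume_closedBall, ← ENNReal.ofReal_pow (by linarith), e1,
      ← ENNReal.ofReal_mul (by positivity)]
    refine ENNReal.ofReal_le_ofReal ?_
    have h2 : R < ε := by linarith [not_le.1 h]
    have h3 : (R + ε) ^ 2 ≤ 4 * (R + ε) * ε := by nlinarith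
    nlinarith [Real.pi_pos]

/-- The bad set in a unit square. -/
theorem fbBS_vol {p : ℂ} {s R ε : ℝ} (hs : 0 < s) (hR : 0 ≤ R) (hε : 0 < ε) (hε1 : ε ≤ 1 / 2)
    (q : ℂ) :
    volume (fbBS p s R ε ∩ sq q 1)
      ≤ ENNReal.ofReal ((4 * (2 / s + 1) + 4 * Real.pi * (R + 1)) * ε) := by
  have hsub : fbBS p s R ε ∩ sq q 1
      ⊆ ({y : ℂ | y.re ∈ fbSt s ε p.re ∩ Set.Ico q.re (q.re + 1) ∧ y.im ∈ Set.Ico q.im (q.im + 1)} ∪
        {y : ℂ | y.re ∈ Set.Ico q.re (q.re + 1) ∧ y.im ∈ fbSt s ε p.im ∩ Set.Ico q.im (q.im + 1)}) ∪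
        {y : ℂ | |‖y‖ - R| ≤ ε} := by
    rintro y ⟨(h | h) | h, h1, h2, h3, h4⟩
    · exact Or.inl (Or.inl ⟨⟨h, h1, h2⟩, h3, h4⟩)
    · exact Or.inl (Or.inr ⟨⟨h1, h2⟩, h, h3, h4⟩)
    · exact Or.inr h
  refine (measure_mono hsub).trans ((measure_union_le _ _).trans ?_)
  refine (add_le_add (measure_union_le _ _) (fb_annulus hR hε)).trans ?_
  rw [fb_reprod _ _ ((fbSt_meas _ _ _).inter measurableSet_Ico) measurableSet_Ico,
    fb_reprod _ _ measurableSet_Ico ((fbSt_meas _ _ _).inter measurableSet_Ico)]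
  have v1 : ∀ t : ℝ, volume (Set.Ico t (t + 1)) = 1 := by
    intro t; rw [Real.volume_Ico]; simp
  rw [v1, v1, mul_one, one_mul]
  refine (add_le_add (add_le_add (fbSt_vol hs hε.le hε1) (fbSt_vol hs hε.le hε1)) le_rfl).trans ?_
  rw [← ENNReal.ofReal_add (by positivity) (by positivity),
    ← ENNReal.ofReal_add (by positivity) (by positivity)]
  refine ENNReal.ofReal_le_ofReal ?_
  have : 4 * Real.pi * (R + ε) * ε ≤ 4 * Real.pi * (R + 1) * ε := by
    gcongr; linarith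
  nlinarith

/-- The bad pairs. -/
def fbBad (a p : ℂ) (s R ε : ℝ) : Set (ℂ × ℝ) :=
  {z | z.1 ∈ sq 0 1 ∧ 0 ≤ z.2 ∧ z.2 < 2 * Real.pi ∧ z.1 + a * cu z.2 ∈ fbBS p s R ε}

theorem cu_cont : Continuous cu := by
  unfold cu
  fun_prop

theorem fbBad_meas (a p : ℂ) (s R ε : ℝ) : MeasurableSet (fbBad a p s R ε) := by
  have h1 : MeasurableSet {z : ℂ × ℝ | z.1 ∈ sq 0 1} := measurable_fst (sq_meas 0 1)
  have h2 : MeasurableSet {z : ℂ × ℝ | 0 ≤ z.2} := measurableSet_le measurable_const measurable_snd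
  have h3 : MeasurableSet {z : ℂ × ℝ | z.2 < 2 * Real.pi} :=
    measurableSet_lt measurable_snd measurable_const
  have h4 : MeasurableSet {z : ℂ × ℝ | z.1 + a * cu z.2 ∈ fbBS p s R ε} := by
    have hm : Measurable (fun z : ℂ × ℝ => z.1 + a * cu z.2) :=
      (continuous_fst.add (continuous_const.mul (cu_cont.comp continuous_snd))).measurable
    exact hm (fbBS_meas p s R ε)
  exact h1.inter (h2.inter (h3.inter h4))

theorem fbBad_vol {a p : ℂ} {s R ε : ℝ} (hs : 0 < s) (hR : 0 ≤ R) (hε : 0 < ε)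
    (hε1 : ε ≤ 1 / 2) :
    volume (fbBad a p s R ε)
      ≤ ENNReal.ofReal (2 * Real.pi * ((4 * (2 / s + 1) + 4 * Real.pi * (R + 1)) * ε)) := by
  rw [Measure.volume_eq_prod, Measure.prod_apply_symm (fbBad_meas a p s R ε)]
  have h1 : ∀ φ : ℝ, volume ((fun x : ℂ => (x, φ)) ⁻¹' (fbBad a p s R ε))
      ≤ (Set.Ico (0 : ℝ) (2 * Real.pi)).indicator
        (fun _ => ENNReal.ofReal ((4 * (2 / s + 1) + 4 * Real.pi * (R + 1)) * ε)) φ := by
    intro φ
    by_cases hφ : φ ∈ Set.Ico (0 : ℝ) (2 * Real.pi)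
    · rw [Set.indicator_of_mem hφ]
      have h2 : (fun x : ℂ => (x, φ)) ⁻¹' (fbBad a p s R ε)
          ⊆ (fun x : ℂ => x + a * cu φ) ⁻¹' (fbBS p s R ε ∩ sq (a * cu φ) 1) := by
        rintro x ⟨⟨k1, k2, k3, k4⟩, k5, k6, k7⟩
        simp only [Complex.zero_re, Complex.zero_im, zero_add] at k1 k2 k3 k4
        refine ⟨k7, ?_, ?_, ?_, ?_⟩ <;> simp only [Complex.add_re, Complex.add_im] <;> linarith
      refine (measure_mono h2).trans ?_
      rw [measure_preimage_add_right]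
      exact fbBS_vol hs hR hε hε1 _
    · rw [Set.indicator_of_notMem hφ]
      have h2 : (fun x : ℂ => (x, φ)) ⁻¹' (fbBad a p s R ε) = ∅ := by
        ext x
        simp only [Set.mem_preimage, Set.mem_empty_iff_false, iff_false]
        rintro ⟨_, k5, k6, _⟩
        exact hφ ⟨k5, k6⟩
      rw [h2, measure_empty]
  refine (lintegral_mono h1).trans ?_
  rw [lintegral_indicator measurableSet_Ico, setLIntegral_const, Real.volume_Ico,
    ENNReal.ofReal_mul (p := 2 * Real.pi) (by positivity), mul_comm]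
  simp

/-- The bad set, real version with the grid side at least `m ≤ 1`. -/
theorem fbBad_real {a p : ℂ} {s R ε m : ℝ} (hm : 0 < m) (hm1 : m ≤ 1) (hs : m ≤ s) (hR : 0 ≤ R)
    (hε : 0 < ε) (hε1 : ε ≤ 1 / 2) :
    volume.real (fbBad a p s R ε) ≤ 2 * Real.pi * (12 + 4 * Real.pi * (R + 1)) * ε / m := by
  have hs0 : 0 < s := hm.trans_le hs
  have h1 := fbBad_vol (a := a) (p := p) hs0 hR hε hε1
  have h2 : volume.real (fbBad a p s R ε)
      ≤ 2 * Real.pi * ((4 * (2 / s + 1) + 4 * Real.pi * (R + 1)) * ε) :=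
    ENNReal.toReal_le_of_le_ofReal (by positivity) h1
  refine h2.trans ?_
  have h3 : 2 / s ≤ 2 / m := by gcongr
  have h4 : 1 ≤ 1 / m := by rw [le_div_iff₀ hm]; linarith
  have h5 : 4 * (2 / s + 1) + 4 * Real.pi * (R + 1) ≤ (12 + 4 * Real.pi * (R + 1)) / m := by
    have e : (12 + 4 * Real.pi * (R + 1)) / m = 4 * (2 / m) + 4 * (1 / m)
        + 4 * Real.pi * (R + 1) * (1 / m) := by ring
    rw [e]
    have : 4 * Real.pi * (R + 1) ≤ 4 * Real.pi * (R + 1) * (1 / m) :=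
      le_mul_of_one_le_right (by positivity) h4
    linarith
  calc 2 * Real.pi * ((4 * (2 / s + 1) + 4 * Real.pi * (R + 1)) * ε)
      ≤ 2 * Real.pi * ((12 + 4 * Real.pi * (R + 1)) / m * ε) := by gcongr
    _ = _ := by ring

theorem cu_norm (φ : ℝ) : ‖cu φ‖ = 1 := by
  unfold cu; exact Complex.norm_exp_ofReal_mul_I φ

theorem cu_lip (φ ψ : ℝ) : ‖cu φ - cu ψ‖ ≤ |φ - ψ| := by
  unfold cu
  have e : Complex.exp (φ * Complex.I) - Complex.exp (ψ * Complex.I)
      = Complex.exp (ψ * Complex.I) * (Complex.exp (((φ - ψ : ℝ) : ℂ) * Complex.I) - 1) := by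
    rw [mul_sub, ← Complex.exp_add, mul_one]
    congr 2
    push_cast; ring
  rw [e, norm_mul, Complex.norm_exp_ofReal_mul_I, one_mul, mul_comm]
  have := Real.norm_exp_I_mul_ofReal_sub_one_le (x := φ - ψ)
  simpa using this

/-- The perturbation of the point `x + a cu φ`. -/
theorem fb_pert (a x x' : ℂ) (φ φ' ρ : ℝ) (hρ : 0 ≤ ρ) :
    ‖(x' + a * ((1 + ρ : ℝ) : ℂ) * cu φ') - (x + a * cu φ)‖
      ≤ ‖x' - x‖ + ‖a‖ * (|φ' - φ| + ρ) := by
  have e : (x' + a * ((1 + ρ : ℝ) : ℂ) * cu φ') - (x + a * cu φ)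
      = (x' - x) + a * ((cu φ' - cu φ) + (ρ : ℂ) * cu φ') := by
    push_cast; ring
  rw [e]
  refine (norm_add_le _ _).trans (add_le_add le_rfl ?_)
  rw [norm_mul]
  refine mul_le_mul_of_nonneg_left ((norm_add_le _ _).trans (add_le_add (cu_lip _ _) ?_))
    (norm_nonneg _)
  rw [norm_mul, cu_norm, mul_one, Complex.norm_real, Real.norm_eq_abs, abs_of_nonneg hρ]

/-- Outside the bad pairs nothing changes under small perturbations. -/
theorem fb_main {a p : ℂ} {s R ε : ℝ} (hs : 0 < s) {x : ℂ} {φ : ℝ} (hx : x ∈ sq 0 1)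
    (h0 : 0 ≤ φ) (h1 : φ < 2 * Real.pi) (hb : (x, φ) ∉ fbBad a p s R ε) {x' : ℂ} {φ' ρ : ℝ}
    (hρ : 0 ≤ ρ) (h : ‖x' - x‖ + ‖a‖ * (|φ' - φ| + ρ) ≤ ε) :
    cell s (x' + a * ((1 + ρ : ℝ) : ℂ) * cu φ' - p) = cell s (x + a * cu φ - p) ∧
      (‖x' + a * ((1 + ρ : ℝ) : ℂ) * cu φ'‖ ≤ R ↔ ‖x + a * cu φ‖ ≤ R) := by
  have hy : x + a * cu φ ∉ fbBS p s R ε := fun hc => hb ⟨hx, h0, h1, hc⟩
  exact fb_good hs hy ((fb_pert a x x' φ φ' ρ hρ).trans h)

end Pool.Agent.H67.Pl
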